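import Pool.Agent.Helper94.AG.Defs
import Pool.Agent.Helper94.AF.Norm
import Pool.Agent.Helper94.AF.Sharp

open Set Finset

set_option linter.unusedSectionVars false

namespace Pool.AF

open Pool.SV

/-! ## AG-1 CONEBLK: a representation preserving a sharp cone, divided by its determinant

`c g = |det (σ g)| ^ (1 / d)`, `ρ g = (c g)⁻¹ • σ g`, `ξ` from `exists_coercive` with `V = ⊥`,
`coercive_bound` gives `‖ρ g⁻¹‖ ≤ A ξ (ρ g⁻¹ v)`, the adjugate gives `‖ρ g‖ ≤ A ‖ρ g⁻¹‖ ^ m`. -/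

private theorem grow_aux {z w s A A1 : ℝ} {m : ℕ} (hA : 0 < A) (hA1 : 0 < A1)
    (h1 : A⁻¹ ≤ z) (h2 : w ≤ A * z ^ m) (h3 : z ≤ A1 * s) :
    (A * A1)⁻¹ ≤ s ∧ w ≤ (A * A1 ^ m * (A * A1)) * s ^ (m + 1) ∧
      z ≤ (A1 * (A * A1) ^ m) * s ^ (m + 1) := by
  have hz : 0 < z := lt_of_lt_of_le (inv_pos.2 hA) h1
  have hs : 0 < s := by
    by_contra hc
    have := mul_nonpos_of_nonneg_of_nonpos hA1.le (not_lt.1 hc)
    linarith
  have h4 : 1 ≤ (A * A1) * s := by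
    have h5 : A⁻¹ ≤ A1 * s := h1.trans h3
    have h6 := mul_le_mul_of_nonneg_left h5 hA.le
    rw [mul_inv_cancel₀ hA.ne'] at h6
    linarith
  refine ⟨?_, ?_, ?_⟩
  · rw [inv_le_iff_one_le_mul₀ (mul_pos hA hA1)]
    linarith
  · calc w ≤ A * z ^ m := h2
      _ ≤ A * (A1 * s) ^ m := by gcongr
      _ = (A * A1 ^ m) * s ^ m * 1 := by rw [mul_pow]; ring
      _ ≤ (A * A1 ^ m) * s ^ m * ((A * A1) * s) := by gcongr
      _ = (A * A1 ^ m * (A * A1)) * s ^ (m + 1) := by ring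
  · calc z ≤ A1 * s := h3
      _ = A1 * s * 1 ^ m := by rw [one_pow, mul_one]
      _ ≤ A1 * s * ((A * A1) * s) ^ m := by gcongr
      _ = (A1 * (A * A1) ^ m) * s ^ (m + 1) := by rw [mul_pow]; ring

theorem blk_of_cone {G : Type*} [Group G] (d : ℕ) (hd : 0 < d)
    (σ : G →* ((Fin d → ℝ) →ₗ[ℝ] (Fin d → ℝ))) (C : Set (Fin d → ℝ)) (hC : SharpCone σ C) :
    ∃ (c : G → ℝ) (ρ : G →* ((Fin d → ℝ) →ₗ[ℝ] (Fin d → ℝ))) (ξ : (Fin d → ℝ) →ₗ[ℝ] ℝ) (b : ℕ),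
      PosMul c ∧ (∀ g v, ρ g v = (c g)⁻¹ • σ g v) ∧ (∀ v ∈ C, 0 < ξ v) ∧
      ∀ v ∈ C, Grow (fun g => LinearMap.toContinuousLinearMap (ρ g)) (fun g => ξ (ρ g⁻¹ v)) b := by
  classical
  haveI : Nonempty (Fin d) := ⟨⟨0, hd⟩⟩
  haveI : Nontrivial (Fin d → ℝ) := inferInstance
  obtain ⟨w0, hw0⟩ := exists_ne (0 : Fin d → ℝ)
  -- zero is not in the cone
  have h0 : (0 : Fin d → ℝ) ∉ C := by
    intro h0
    obtain ⟨r, hr, hball⟩ := Metric.isOpen_iff.1 hC.isOpen 0 h0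
    obtain ⟨x, _, t, hxt⟩ := hC.noLine w0 hw0
    refine hxt ?_
    set y := x + t • w0 with hy
    have hs : 0 < r / (2 * (1 + ‖y‖)) := by positivity
    have h1 : (r / (2 * (1 + ‖y‖))) • y ∈ C := by
      refine hball ?_
      rw [Metric.mem_ball, dist_zero_right, norm_smul, Real.norm_eq_abs, abs_of_pos hs]
      rw [div_mul_eq_mul_div, div_lt_iff₀ (by positivity)]
      have : 0 ≤ ‖y‖ := norm_nonneg _
      nlinarith
    have h2 := hC.smul_mem _ h1 (r / (2 * (1 + ‖y‖)))⁻¹ (inv_pos.2 hs)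
    rwa [smul_smul, inv_mul_cancel₀ hs.ne', one_smul] at h2
  let φ : G →* ((Fin d → ℝ) →L[ℝ] (Fin d → ℝ)) :=
    { toFun := fun g => LinearMap.toContinuousLinearMap (σ g)
      map_one' := by
        ext x : 1
        show (σ 1) x = x
        rw [map_one]; rfl
      map_mul' := by
        intro g h
        ext x : 1
        show (σ (g * h)) x = (σ g) ((σ h) x)
        rw [map_mul]; rfl }
  have hφ : ∀ g, φ g = LinearMap.toContinuousLinearMap (σ g) := fun g => rfl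
  have h10 : (1 : (Fin d → ℝ) →L[ℝ] (Fin d → ℝ)) ≠ 0 := by
    intro h
    have := congrArg (fun T : (Fin d → ℝ) →L[ℝ] (Fin d → ℝ) => T w0) h
    exact hw0 this
  obtain ⟨c, ⟨hcpos, hcmul⟩, A, m, hA, hAm⟩ := norm_aux φ 1 (one_mul 1) h10
    (by intro g h; rw [map_mul]; simp only [one_mul, mul_one])
  have hc1 : c 1 = 1 := by
    have h1 := hcmul 1 1
    rw [one_mul] at h1
    have h2 := (hcpos 1).ne'
    field_simp at h1
    linarith
  let ρ : G →* ((Fin d → ℝ) →ₗ[ℝ] (Fin d → ℝ)) :=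
    { toFun := fun g => (c g)⁻¹ • σ g
      map_one' := by rw [hc1, map_one, inv_one, one_smul]
      map_mul' := by
        intro g h
        rw [hcmul, map_mul, mul_inv, smul_mul_smul_comm] }
  have hρ : ∀ g v, ρ g v = (c g)⁻¹ • σ g v := fun g v => rfl
  have hρφ : ∀ g, LinearMap.toContinuousLinearMap (ρ g) = (c g)⁻¹ • (1 * φ g * 1) := by
    intro g
    rw [one_mul, mul_one]
    ext x : 1
    rfl
  obtain ⟨ξ, c₀, hc₀, _, hξ⟩ := exists_coercive C hC.isOpen hC.convex hC.nonempty hC.smul_mem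
    (⊥ : Submodule ℝ (Fin d → ℝ)) (by
      intro v
      rw [Submodule.mem_bot]
      constructor
      · intro hv x hx t
        rw [hv, smul_zero, add_zero]
        exact hx
      · intro hv
        by_contra hne
        obtain ⟨x, hx, t, ht⟩ := hC.noLine v hne
        exact ht (hv x hx t)) (0 : (Fin d → ℝ) →L[ℝ] (Fin d → ℝ)) (by intro v; simp) (by
      intro v hv
      rw [Submodule.mem_bot] at hv
      rw [hv, map_zero])
  refine ⟨c, ρ, ξ, m + 1, ⟨hcpos, hcmul⟩, hρ, ?_, ?_⟩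
  · intro v hv
    have h1 := hξ v hv
    have h2 : v ≠ 0 := fun h => h0 (h ▸ hv)
    have h3 : 0 < ‖v‖ := norm_pos_iff.2 h2
    have h4 : ((0 : (Fin d → ℝ) →L[ℝ] (Fin d → ℝ)) v) = 0 := rfl
    rw [h4, sub_zero] at h1
    have := mul_pos hc₀ h3
    linarith
  · intro v hv
    obtain ⟨A1, hA1, hb⟩ := coercive_bound C hC.isOpen (0 : (Fin d → ℝ) →L[ℝ] (Fin d → ℝ)) ξ c₀ hc₀
      hξ v hv
    have hkey : ∀ g, (A * A1)⁻¹ ≤ ξ (ρ g⁻¹ v) ∧
        ‖LinearMap.toContinuousLinearMap (ρ g)‖ ≤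
          (A * A1 ^ m * (A * A1)) * (ξ (ρ g⁻¹ v)) ^ (m + 1) ∧
        ‖LinearMap.toContinuousLinearMap (ρ g⁻¹)‖ ≤
          (A1 * (A * A1) ^ m) * (ξ (ρ g⁻¹ v)) ^ (m + 1) := by
      intro g
      have h1 := hAm g⁻¹
      rw [inv_inv, ← hρφ, ← hρφ] at h1
      have h2 := hb (LinearMap.toContinuousLinearMap (ρ g⁻¹)) (by
        intro x hx
        show (c g⁻¹)⁻¹ • σ g⁻¹ x ∈ C
        exact hC.smul_mem _ (hC.inv g⁻¹ x hx) _ (inv_pos.2 (hcpos _)))
      rw [sub_zero, one_mul] at h2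
      exact grow_aux hA hA1 h1.1 h1.2 h2
    refine ⟨max (A * A1) (max (A * A1 ^ m * (A * A1)) (A1 * (A * A1) ^ m)),
      lt_max_of_lt_left (mul_pos hA hA1), ?_⟩
    intro g
    obtain ⟨h1, h2, h3⟩ := hkey g
    have hs : 0 < ξ (ρ g⁻¹ v) := lt_of_lt_of_le (inv_pos.2 (mul_pos hA hA1)) h1
    refine ⟨?_, ?_, ?_⟩
    · refine le_trans ?_ h1
      exact inv_anti₀ (mul_pos hA hA1) (le_max_left _ _)
    · refine h2.trans ?_
      refine mul_le_mul_of_nonneg_right ?_ (pow_nonneg hs.le _)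
      exact (le_max_left _ _).trans (le_max_right _ _)
    · refine h3.trans ?_
      refine mul_le_mul_of_nonneg_right ?_ (pow_nonneg hs.le _)
      exact (le_max_right _ _).trans (le_max_right _ _)

end Pool.AF
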