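import Pool.Agent.Helper94.AG.Defs

open Set Finset

set_option linter.unusedSectionVars false

namespace Pool.AF

open Pool.SV

/-! ## AG-2 CUTBDD: translation between the bounds of the definition and the blocks -/

section

variable {E : Type*} [NormedAddCommGroup E] [NormedSpace ℝ E] [FiniteDimensional ℝ E]

private theorem cutBdd_hat (D : Geo E) (g : D.Γ) (w : E) :
    hatHom D.Γ g (w, 0) = (g.1.linear w, 0) := by
  show hat g.1 (w, 0) = (g.1.linear w, 0)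
  rw [hat_apply]
  simp

private theorem cutBdd_hat1 (D : Geo E) (g : D.Γ) (x : E) :
    hatHom D.Γ g (x, 1) = (g.1 x, 1) := by
  show hat g.1 (x, 1) = (g.1 x, 1)
  rw [hat_apply]
  simp only [one_smul]
  rw [← aff_eq]

private theorem cutBdd_aux (D : Geo E) (A B : Submodule ℝ E) (eA eB : Alg E)
    (hB2 : eB * eB = eB) (hAr : ∀ v : E × ℝ, eA v = v ↔ v.2 = 0 ∧ v.1 ∈ A)
    (hBr : ∀ v : E × ℝ, eB v = v ↔ v.2 = 0 ∧ v.1 ∈ B)
    (hAB2 : eB * eA = eA) (R t : ℝ) (ht : 0 < t) (g : D.Γ)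
    (h : ∀ v ∈ B, ∃ a ∈ A, ‖t • g.1.linear v - a‖ ≤ R * ‖v‖) :
    ‖t • ((eB - eA) * hatHom D.Γ g * (eB - eA))‖ ≤ ‖eB - eA‖ * ‖eB - eA‖ * max R 0 := by
  set f : Alg E := eB - eA with hf
  have hM : 0 ≤ max R 0 := le_max_right _ _
  refine ContinuousLinearMap.opNorm_le_bound _ (by positivity) fun z => ?_
  have h1 : eB (f z) = f z := by
    have h2 : eB * f = f := by rw [hf, mul_sub, hB2, hAB2]
    have := congrArg (fun T : Alg E => T z) h2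
    exact this
  obtain ⟨hz2, hz1⟩ := (hBr (f z)).1 h1
  obtain ⟨a, ha, hb⟩ := h _ hz1
  have hfz : f z = ((f z).1, 0) := Prod.ext rfl hz2
  have hfa : f (a, 0) = 0 := by
    have h3 : eA (a, 0) = (a, 0) := (hAr (a, 0)).2 ⟨rfl, ha⟩
    have h4 : eB (a, 0) = (a, 0) := by
      have h5 : (eB * eA) (a, 0) = eA (a, 0) := by rw [hAB2]
      have h6 : (eB * eA) (a, 0) = eB (eA (a, 0)) := rfl
      rw [h6, h3] at h5
      exact h5
    rw [hf]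
    show eB (a, 0) - eA (a, 0) = 0
    rw [h3, h4, sub_self]
  have h7 : (t • (f * hatHom D.Γ g * f)) z = f (t • g.1.linear (f z).1 - a, 0) := by
    have h8 : (t • (f * hatHom D.Γ g * f)) z = t • f (hatHom D.Γ g (f z)) := rfl
    rw [h8]
    nth_rewrite 1 [hfz]
    rw [cutBdd_hat, ← map_smul]
    have h9 : (t • g.1.linear (f z).1 - a, (0 : ℝ)) =
        t • (g.1.linear (f z).1, (0 : ℝ)) - (a, (0 : ℝ)) := by
      ext <;> simp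
    rw [h9, map_sub, hfa, sub_zero]
  rw [h7]
  have h10 : ‖((t • g.1.linear (f z).1 - a, 0) : E × ℝ)‖ = ‖t • g.1.linear (f z).1 - a‖ := by
    simp [Prod.norm_def]
  have h11 : ‖(f z).1‖ ≤ ‖f z‖ := norm_fst_le _
  calc ‖f (t • g.1.linear (f z).1 - a, 0)‖ ≤ ‖f‖ * ‖((t • g.1.linear (f z).1 - a, 0) : E × ℝ)‖ :=
        f.le_opNorm _
    _ ≤ ‖f‖ * (max R 0 * ‖(f z).1‖) := by
        rw [h10]
        exact mul_le_mul_of_nonneg_left (hb.trans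
          (mul_le_mul_of_nonneg_right (le_max_left _ _) (norm_nonneg _))) (norm_nonneg _)
    _ ≤ ‖f‖ * (max R 0 * (‖f‖ * ‖z‖)) := by
        refine mul_le_mul_of_nonneg_left ?_ (norm_nonneg _)
        exact mul_le_mul_of_nonneg_left (h11.trans (f.le_opNorm z)) hM
    _ = ‖f‖ * ‖f‖ * max R 0 * ‖z‖ := by ring

/-- With `B g = f φ(g) f`: `t B g` and `t⁻¹ B g⁻¹` are bounded by `const * R`; with `κ = t * c g`,
`cut g = κ⁻¹ (t B g)`, `cut g⁻¹ = κ (t⁻¹ B g⁻¹)`, and the lower bound of both norms gives that `κ`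
and `κ⁻¹` are bounded. -/
theorem cut_bdd (D : Geo E) (A B : Submodule ℝ E) (hA : ∀ g ∈ D.Γ, ∀ v ∈ A, g.linear v ∈ A)
    (hB : ∀ g ∈ D.Γ, ∀ v ∈ B, g.linear v ∈ B) (eA eB : Alg E) (hA2 : eA * eA = eA)
    (hB2 : eB * eB = eB) (hAr : ∀ v : E × ℝ, eA v = v ↔ v.2 = 0 ∧ v.1 ∈ A)
    (hBr : ∀ v : E × ℝ, eB v = v ↔ v.2 = 0 ∧ v.1 ∈ B) (hAB1 : eA * eB = eA)
    (hAB2 : eB * eA = eA) (c : D.Γ → ℝ) (hc : PosMul c) (a₀ : ℝ) (ha₀ : 0 < a₀)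
    (hlow : ∀ g, a₀⁻¹ ≤ ‖cut (hatHom D.Γ) (eB - eA) c g‖) (R : ℝ) :
    ∃ R' : ℝ, ∀ g : D.Γ, QuotBdd A B R g.1 →
      ‖cut (hatHom D.Γ) (eB - eA) c g‖ ≤ R' ∧ ‖cut (hatHom D.Γ) (eB - eA) c g⁻¹‖ ≤ R' := by
  set L : ℝ := ‖eB - eA‖ * ‖eB - eA‖ * max R 0 with hL
  have hL0 : 0 ≤ L := by
    have : 0 ≤ max R 0 := le_max_right _ _
    positivity
  refine ⟨a₀ * L ^ 2, fun g hg => ?_⟩
  obtain ⟨t, ht, hq⟩ := hg
  have hb1 := cutBdd_aux D A B eA eB hB2 hAr hBr hAB2 R t ht g (fun v hv => by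
    obtain ⟨a, ha, a', _, h1, _⟩ := hq v hv
    exact ⟨a, ha, h1⟩)
  have hb2 := cutBdd_aux D A B eA eB hB2 hAr hBr hAB2 R t⁻¹ (inv_pos.2 ht) g⁻¹ (fun v hv => by
    obtain ⟨a, _, a', ha', _, h2⟩ := hq v hv
    exact ⟨a', ha', h2⟩)
  rw [← hL] at hb1 hb2
  have hcg := hc.1 g
  have hc1 : c 1 = 1 := by
    have h1 := hc.2 1 1
    rw [mul_one] at h1
    have h2 := hc.1 1
    have h3 : c 1 * (c 1 - 1) = 0 := by linarith
    rcases mul_eq_zero.1 h3 with h | h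
    · linarith
    · linarith
  have hcinv : c g⁻¹ = (c g)⁻¹ := by
    have h1 := hc.2 g g⁻¹
    rw [mul_inv_cancel, hc1] at h1
    exact eq_inv_of_mul_eq_one_right h1.symm
  set κ : ℝ := t * c g with hκ
  have hκ0 : 0 < κ := mul_pos ht hcg
  have e1 : cut (hatHom D.Γ) (eB - eA) c g =
      κ⁻¹ • (t • ((eB - eA) * hatHom D.Γ g * (eB - eA))) := by
    unfold cut
    rw [smul_smul]
    congr 1
    rw [hκ]
    field_simp
  have e2 : cut (hatHom D.Γ) (eB - eA) c g⁻¹ =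
      κ • (t⁻¹ • ((eB - eA) * hatHom D.Γ g⁻¹ * (eB - eA))) := by
    unfold cut
    rw [smul_smul]
    congr 1
    rw [hκ, hcinv]
    field_simp
  have n1 : ‖cut (hatHom D.Γ) (eB - eA) c g‖ ≤ κ⁻¹ * L := by
    rw [e1, norm_smul, Real.norm_eq_abs, abs_of_pos (inv_pos.2 hκ0)]
    exact mul_le_mul_of_nonneg_left hb1 (inv_pos.2 hκ0).le
  have n2 : ‖cut (hatHom D.Γ) (eB - eA) c g⁻¹‖ ≤ κ * L := by
    rw [e2, norm_smul, Real.norm_eq_abs, abs_of_pos hκ0]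
    exact mul_le_mul_of_nonneg_left hb2 hκ0.le
  have k1 : κ ≤ a₀ * L := by
    have h1 : a₀⁻¹ ≤ κ⁻¹ * L := (hlow g).trans n1
    have h2 : a₀⁻¹ * (a₀ * κ) ≤ κ⁻¹ * L * (a₀ * κ) :=
      mul_le_mul_of_nonneg_right h1 (by positivity)
    have h3 : a₀⁻¹ * (a₀ * κ) = κ := by field_simp
    have h4 : κ⁻¹ * L * (a₀ * κ) = a₀ * L := by field_simp
    rw [h3, h4] at h2
    exact h2
  have k2 : κ⁻¹ ≤ a₀ * L := by
    have h1 : a₀⁻¹ ≤ κ * L := (hlow g⁻¹).trans n2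
    have h2 : a₀⁻¹ * (a₀ * κ⁻¹) ≤ κ * L * (a₀ * κ⁻¹) :=
      mul_le_mul_of_nonneg_right h1 (by positivity)
    have h3 : a₀⁻¹ * (a₀ * κ⁻¹) = κ⁻¹ := by field_simp
    have h4 : κ * L * (a₀ * κ⁻¹) = a₀ * L := by field_simp
    rw [h3, h4] at h2
    exact h2
  constructor
  · calc _ ≤ κ⁻¹ * L := n1
      _ ≤ a₀ * L * L := mul_le_mul_of_nonneg_right k2 hL0
      _ = a₀ * L ^ 2 := by ring
  · calc _ ≤ κ * L := n2
      _ ≤ a₀ * L * L := mul_le_mul_of_nonneg_right k1 hL0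
      _ = a₀ * L ^ 2 := by ring

private theorem affBdd_aux (D : Geo E) (V : Submodule ℝ E)
    (hV : ∀ g ∈ D.Γ, ∀ v ∈ V, g.linear v ∈ V) (e : Alg E) (he : e * e = e)
    (hr : ∀ v : E × ℝ, e v = v ↔ v.2 = 0 ∧ v.1 ∈ V) (R : ℝ) (g : D.Γ)
    (h : ‖(1 - e) * hatHom D.Γ g * (1 - e)‖ ≤ R) (x : E) :
    ∃ v ∈ V, ‖g.1 x - v‖ ≤ R * (1 + ‖x‖) := by
  have hee : ∀ w, e (e w) = e w := fun w => by
    have := congrArg (fun T : Alg E => T w) he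
    exact this
  have hinv : ∀ w : E × ℝ, (1 - e : Alg E) (hatHom D.Γ g (e w)) = 0 := by
    intro w
    obtain ⟨h2, h1⟩ := (hr (e w)).1 (hee w)
    have hew : e w = ((e w).1, 0) := Prod.ext rfl h2
    rw [hew, cutBdd_hat]
    have h3 : e (g.1.linear (e w).1, 0) = (g.1.linear (e w).1, 0) :=
      (hr _).2 ⟨rfl, hV g.1 g.2 _ h1⟩
    show (g.1.linear (e w).1, (0 : ℝ)) - e (g.1.linear (e w).1, 0) = 0
    rw [h3, sub_self]
  have hR : 0 ≤ R := (norm_nonneg _).trans h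
  obtain ⟨h2, h1⟩ := (hr (e (g.1 x, 1))).1 (hee _)
  refine ⟨(e (g.1 x, 1)).1, h1, ?_⟩
  have h3 : (1 - e : Alg E) (g.1 x, 1) = (g.1 x - (e (g.1 x, 1)).1, 1 - (e (g.1 x, 1)).2) := rfl
  have h4 : ((1 - e) * hatHom D.Γ g * (1 - e) : Alg E) (x, 1) = (1 - e : Alg E) (g.1 x, 1) := by
    have h5 : ((1 - e) * hatHom D.Γ g * (1 - e) : Alg E) (x, 1) =
        (1 - e : Alg E) (hatHom D.Γ g ((x, 1) - e (x, 1))) := rfl
    rw [h5, map_sub, map_sub, hinv, sub_zero, cutBdd_hat1]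
  have h6 : ‖g.1 x - (e (g.1 x, 1)).1‖ ≤ ‖(1 - e : Alg E) (g.1 x, 1)‖ := by
    rw [h3]
    exact norm_fst_le (g.1 x - (e (g.1 x, 1)).1, 1 - (e (g.1 x, 1)).2)
  have h7 : ‖((x, 1) : E × ℝ)‖ ≤ 1 + ‖x‖ := by
    rw [Prod.norm_def]
    simp only [norm_one]
    exact max_le (by linarith) (by linarith [norm_nonneg x])
  calc _ ≤ ‖(1 - e : Alg E) (g.1 x, 1)‖ := h6
    _ = ‖((1 - e) * hatHom D.Γ g * (1 - e) : Alg E) (x, 1)‖ := by rw [h4]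
    _ ≤ ‖((1 - e) * hatHom D.Γ g * (1 - e) : Alg E)‖ * ‖((x, 1) : E × ℝ)‖ :=
        ContinuousLinearMap.le_opNorm _ _
    _ ≤ R * (1 + ‖x‖) := mul_le_mul h h7 (norm_nonneg _) hR

/-- A bound of the top block gives a bound of the affine action on `E / V`. -/
theorem affBdd_of_top (D : Geo E) (V : Submodule ℝ E) (hV : ∀ g ∈ D.Γ, ∀ v ∈ V, g.linear v ∈ V)
    (e : Alg E) (he : e * e = e) (hr : ∀ v : E × ℝ, e v = v ↔ v.2 = 0 ∧ v.1 ∈ V) (R : ℝ) :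
    ∃ R' : ℝ, ∀ g : D.Γ, ‖(1 - e) * hatHom D.Γ g * (1 - e)‖ ≤ R →
      ‖(1 - e) * hatHom D.Γ g⁻¹ * (1 - e)‖ ≤ R → AffBdd V R' g.1 := by
  refine ⟨R, fun g h1 h2 x => ?_⟩
  obtain ⟨v, hv, hv'⟩ := affBdd_aux D V hV e he hr R g h1 x
  obtain ⟨w, hw, hw'⟩ := affBdd_aux D V hV e he hr R g⁻¹ h2 x
  exact ⟨v, hv, w, hw, hv', hw'⟩

end

end Pool.AF
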