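import Pool.Agent.Helper94.AF.Defs

/-!
# Project AG: linear actions dominated by actions on convex cones

Definitions used in the final statement.
-/

open Set Finset

namespace Pool.AF

open Pool.SV

/-- `g` and `g⁻¹` are bounded by `R`, up to a positive scalar, in the representation `σ`. -/
def ScalBdd {G : Type*} [Group G] {d : ℕ} (σ : G →* ((Fin d → ℝ) →ₗ[ℝ] (Fin d → ℝ))) (R : ℝ)
    (g : G) : Prop :=
  ∃ t : ℝ, 0 < t ∧ ∀ v, ‖t • σ g v‖ ≤ R * ‖v‖ ∧ ‖t⁻¹ • σ g⁻¹ v‖ ≤ R * ‖v‖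

section

variable {E : Type*} [NormedAddCommGroup E] [NormedSpace ℝ E]

/-- `g` and `g⁻¹` are bounded by `R`, up to a positive scalar, on `B / A`. -/
def QuotBdd (A B : Submodule ℝ E) (R : ℝ) (g : E ≃ᵃ[ℝ] E) : Prop :=
  ∃ t : ℝ, 0 < t ∧ ∀ v ∈ B, ∃ a ∈ A, ∃ a' ∈ A,
    ‖t • g.linear v - a‖ ≤ R * ‖v‖ ∧ ‖t⁻¹ • g⁻¹.linear v - a'‖ ≤ R * ‖v‖

/-- The affine maps `g` and `g⁻¹` are bounded by `R` on `E / V`. -/
def AffBdd (V : Submodule ℝ E) (R : ℝ) (g : E ≃ᵃ[ℝ] E) : Prop :=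
  ∀ x : E, ∃ v ∈ V, ∃ v' ∈ V, ‖g x - v‖ ≤ R * (1 + ‖x‖) ∧ ‖g⁻¹ x - v'‖ ≤ R * (1 + ‖x‖)

/-- `C` is a nonempty open convex cone of `ℝ^d` that contains no line and is preserved by `σ`. -/
structure SharpCone {G : Type*} [Group G] {d : ℕ}
    (σ : G →* ((Fin d → ℝ) →ₗ[ℝ] (Fin d → ℝ))) (C : Set (Fin d → ℝ)) : Prop where
  isOpen : IsOpen C
  convex : Convex ℝ C
  nonempty : C.Nonempty
  smul_mem : ∀ v ∈ C, ∀ t : ℝ, 0 < t → t • v ∈ C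
  noLine : ∀ v, v ≠ 0 → ∃ x ∈ C, ∃ t : ℝ, x + t • v ∉ C
  inv : ∀ g, ∀ v ∈ C, σ g v ∈ C

/-- The action of `Γ` on the lineality space `V` of `X` is dominated by actions on convex cones
`C_j` in `ℝ^{d_j}` without lines, with `∑ (d_j - 1) ≤ dim V` (and `< dim V` if `X` is the whole
space): the elements that are bounded up to scalars in all the `ℝ^{d_j}` and bounded on `E / V`
are bounded up to scalars on the quotients of an invariant flag of `V`. -/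
def ConeDominated (Γ : Subgroup (E ≃ᵃ[ℝ] E)) (X : Set E) : Prop :=
  ∃ (r : ℕ) (F : ℕ → Submodule ℝ E) (k : ℕ) (d : Fin k → ℕ)
    (σ : ∀ j, Γ →* ((Fin (d j) → ℝ) →ₗ[ℝ] (Fin (d j) → ℝ))) (C : ∀ j, Set (Fin (d j) → ℝ)),
    F 0 = ⊥ ∧ (∀ v, v ∈ F r ↔ ∀ x ∈ X, ∀ t : ℝ, x + t • v ∈ X) ∧
    (∀ i < r, F i ≤ F (i + 1) ∧ ∀ g ∈ Γ, ∀ v ∈ F (i + 1), g.linear v ∈ F (i + 1)) ∧
    (∀ j, 0 < d j ∧ SharpCone (σ j) (C j)) ∧
    ∑ j, (d j - 1) ≤ Module.finrank ℝ (F r) ∧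
    (X = Set.univ → ∑ j, (d j - 1) < Module.finrank ℝ (F r)) ∧
    ∀ R : ℝ, ∃ R' : ℝ, ∀ g : Γ, (∀ j, ScalBdd (σ j) R g) → AffBdd (F r) R g.1 →
      ∀ i < r, QuotBdd (F i) (F (i + 1)) R' g.1

end

end Pool.AF
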