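import Pool.Agent.Helper94.AF.Summ
import Pool.Agent.Helper94.AF.Grow

open Set Finset

set_option linter.unusedSectionVars false

namespace Pool.AF

/-! ## AG-3 DOMSUM: summability from several representations (apply `summable_of_grow` to the
homomorphism into the product algebra `(∀ j, ℝ^{d_j} →L ℝ^{d_j}) × R₀`; cf. `grow_sum`) -/

/-- the homomorphism of a representation into the continuous linear maps -/
private noncomputable def contHom {G : Type*} [Group G] (n : ℕ)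
    (ρ : G →* ((Fin n → ℝ) →ₗ[ℝ] (Fin n → ℝ))) : G →* ((Fin n → ℝ) →L[ℝ] (Fin n → ℝ)) where
  toFun g := LinearMap.toContinuousLinearMap (ρ g)
  map_one' := by
    ext v i
    simp
  map_mul' g h := by
    ext v i
    simp

private lemma prod_le_pow {k : ℕ} {s : Fin k → ℝ} {s₀ A : ℝ} (hA : 1 ≤ A)
    (hs : ∀ j, A⁻¹ ≤ s j) (hs₀ : A⁻¹ ≤ s₀) :
    (A ^ (k + 1))⁻¹ ≤ s₀ * ∏ j, s j ∧ s₀ ≤ A ^ (k + 1) * (s₀ * ∏ j, s j) ∧
      ∀ j, s j ≤ A ^ (k + 1) * (s₀ * ∏ i, s i) := by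
  have hA0 : 0 < A := by linarith
  have hi : 0 < A⁻¹ := inv_pos.2 hA0
  have s0 : 0 < s₀ := hi.trans_le hs₀
  have sj : ∀ j, 0 < s j := fun j => hi.trans_le (hs j)
  have hprod : (A ^ k)⁻¹ ≤ ∏ j, s j := by
    calc (A ^ k)⁻¹ = ∏ _j : Fin k, A⁻¹ := by
          rw [Finset.prod_const, Finset.card_univ, Fintype.card_fin, inv_pow]
      _ ≤ ∏ j, s j := Finset.prod_le_prod (fun _ _ => hi.le) fun j _ => hs j
  have hprod0 : 0 < ∏ j, s j := Finset.prod_pos fun j _ => sj j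
  have hk0 : 0 < A ^ k := by positivity
  have h1 : 1 ≤ A ^ k * ∏ j, s j := by
    calc (1 : ℝ) = A ^ k * (A ^ k)⁻¹ := (mul_inv_cancel₀ hk0.ne').symm
      _ ≤ A ^ k * ∏ j, s j := by gcongr
  refine ⟨?_, ?_, ?_⟩
  · rw [pow_succ, mul_inv, mul_comm]
    gcongr
  · calc s₀ = 1 * s₀ * 1 := by ring
      _ ≤ (A ^ k * ∏ j, s j) * s₀ * A := by gcongr
      _ = A ^ (k + 1) * (s₀ * ∏ j, s j) := by ring
  · intro j
    have hk : k = (k - 1) + 1 := by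
      have := j.pos
      omega
    have h3 : (A ^ (k - 1))⁻¹ ≤ ∏ i ∈ Finset.univ.erase j, s i := by
      calc (A ^ (k - 1))⁻¹ = ∏ _i ∈ Finset.univ.erase j, A⁻¹ := by
            rw [Finset.prod_const, Finset.card_erase_of_mem (Finset.mem_univ j),
              Finset.card_univ, Fintype.card_fin, inv_pow]
        _ ≤ ∏ i ∈ Finset.univ.erase j, s i :=
            Finset.prod_le_prod (fun _ _ => hi.le) fun i _ => hs i
    have h4 : ∏ i, s i = s j * ∏ i ∈ Finset.univ.erase j, s i :=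
      (Finset.mul_prod_erase _ _ (Finset.mem_univ j)).symm
    have h30 : 0 < ∏ i ∈ Finset.univ.erase j, s i := Finset.prod_pos fun i _ => sj i
    have hk1 : 0 < A ^ (k - 1) := by positivity
    have h5 : 1 ≤ A ^ (k - 1) * ∏ i ∈ Finset.univ.erase j, s i := by
      calc (1 : ℝ) = A ^ (k - 1) * (A ^ (k - 1))⁻¹ := (mul_inv_cancel₀ hk1.ne').symm
        _ ≤ A ^ (k - 1) * ∏ i ∈ Finset.univ.erase j, s i := by gcongr
    have h6 : 1 ≤ A * s₀ := by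
      calc (1 : ℝ) = A * A⁻¹ := (mul_inv_cancel₀ hA0.ne').symm
        _ ≤ A * s₀ := by gcongr
    have h7 : A ^ (k + 1) = A ^ (k - 1) * A * A := by
      conv_lhs => rw [hk]
      rw [pow_succ, pow_succ]
    have hsj := sj j
    calc s j = 1 * 1 * 1 * s j := by ring
      _ ≤ A * (A * s₀) * (A ^ (k - 1) * ∏ i ∈ Finset.univ.erase j, s i) * s j := by gcongr
      _ = A ^ (k + 1) * (s₀ * ∏ i, s i) := by
          rw [h7, h4]
          ring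

theorem summable_total {G R₀ : Type*} [Group G] [NormedRing R₀] [NormedAlgebra ℝ R₀]
    [FiniteDimensional ℝ R₀] (k : ℕ) (d : Fin k → ℕ)
    (ρ : ∀ j, G →* ((Fin (d j) → ℝ) →ₗ[ℝ] (Fin (d j) → ℝ))) (T : G →* R₀)
    (hfin : ∀ C : ℝ, {g : G | (∀ j, ‖LinearMap.toContinuousLinearMap (ρ j g)‖ ≤ C ∧
      ‖LinearMap.toContinuousLinearMap (ρ j g⁻¹)‖ ≤ C) ∧ ‖T g‖ ≤ C ∧ ‖T g⁻¹‖ ≤ C}.Finite)
    (b : ℕ) :
    ∃ N₀ : ℕ, ∀ N ≥ N₀, ∀ (s : Fin k → G → ℝ) (s₀ : G → ℝ),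
      (∀ j, Grow (fun g => LinearMap.toContinuousLinearMap (ρ j g)) (s j) b) → Grow T s₀ b →
      Summable (fun g => (s₀ g * ∏ j, s j g)⁻¹ ^ N) := by
  classical
  let R : Type _ := (∀ j : Fin k, (Fin (d j) → ℝ) →L[ℝ] (Fin (d j) → ℝ)) × R₀
  let τ : G →* (∀ j : Fin k, (Fin (d j) → ℝ) →L[ℝ] (Fin (d j) → ℝ)) × R₀ :=
    (Pi.monoidHom fun j => contHom (d j) (ρ j)).prod T
  have hτ : ∀ g, τ g = (fun j => LinearMap.toContinuousLinearMap (ρ j g), T g) := fun g => rfl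
  have hnorm : ∀ g (C : ℝ), 0 ≤ C → (‖τ g‖ ≤ C ↔
      (∀ j, ‖LinearMap.toContinuousLinearMap (ρ j g)‖ ≤ C) ∧ ‖T g‖ ≤ C) := by
    intro g C hC
    rw [hτ g, Prod.norm_mk, max_le_iff, pi_norm_le_iff_of_nonneg hC]
  have hd : Disc τ := by
    intro C
    refine (hfin (max C 0)).subset ?_
    rintro g ⟨h1, h2⟩
    have h3 := (hnorm g _ (le_max_right C 0)).1 (h1.trans (le_max_left _ _))
    have h4 := (hnorm g⁻¹ _ (le_max_right C 0)).1 (h2.trans (le_max_left _ _))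
    exact ⟨fun j => ⟨h3.1 j, h4.1 j⟩, h3.2, h4.2⟩
  obtain ⟨N₀, hN₀⟩ := summable_of_grow τ hd b
  refine ⟨N₀, fun N hN s s₀ hs hs₀ => hN₀ N hN _ ?_⟩
  obtain ⟨A₀, hA₀, hg₀⟩ := hs₀
  choose A hA hg using hs
  have hsum : 0 ≤ ∑ i, A i := Finset.sum_nonneg fun i _ => (hA i).le
  set B : ℝ := 1 + A₀ + ∑ i, A i with hB
  have hB1 : 1 ≤ B := by linarith
  have hB0 : 0 < B := by linarith
  have hAB : ∀ i, A i ≤ B := fun i => by
    have h1 : A i ≤ ∑ i, A i := Finset.single_le_sum (fun j _ => (hA j).le) (Finset.mem_univ i)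
    linarith
  have hA₀B : A₀ ≤ B := by linarith
  have key : ∀ g, (B ^ (k + 1))⁻¹ ≤ s₀ g * ∏ j, s j g ∧
      s₀ g ≤ B ^ (k + 1) * (s₀ g * ∏ j, s j g) ∧
      ∀ j, s j g ≤ B ^ (k + 1) * (s₀ g * ∏ i, s i g) := fun g =>
    prod_le_pow hB1 (fun j => (inv_anti₀ (hA j) (hAB j)).trans (hg j g).1)
      ((inv_anti₀ hA₀ hA₀B).trans (hg₀ g).1)
  have hBk : 0 < B ^ (k + 1) := by positivity
  have hpos : ∀ g, 0 < s₀ g * ∏ j, s j g := fun g => (inv_pos.2 hBk).trans_le (key g).1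
  have hs₀p : ∀ g, 0 < s₀ g := fun g => (inv_pos.2 hA₀).trans_le (hg₀ g).1
  have hsp : ∀ j g, 0 < s j g := fun j g => (inv_pos.2 (hA j)).trans_le (hg j g).1
  have est : ∀ g h : G, (∀ j, ‖LinearMap.toContinuousLinearMap (ρ j h)‖ ≤ A j * s j g ^ b) →
      ‖T h‖ ≤ A₀ * s₀ g ^ b →
      ‖τ h‖ ≤ (B ^ (k + 1) + B * (B ^ (k + 1)) ^ b) * (s₀ g * ∏ j, s j g) ^ b := by
    intro g h h1 h2
    have hP := hpos g
    have h3 : ∀ x : ℝ, 0 ≤ x → x ≤ B ^ (k + 1) * (s₀ g * ∏ j, s j g) → ∀ a : ℝ, 0 ≤ a → a ≤ B →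
        a * x ^ b ≤ (B ^ (k + 1) + B * (B ^ (k + 1)) ^ b) * (s₀ g * ∏ j, s j g) ^ b := by
      intro x hx0 hx a ha0 ha
      calc a * x ^ b ≤ B * (B ^ (k + 1) * (s₀ g * ∏ j, s j g)) ^ b := by gcongr
        _ = (0 + B * (B ^ (k + 1)) ^ b) * (s₀ g * ∏ j, s j g) ^ b := by rw [mul_pow]; ring
        _ ≤ (B ^ (k + 1) + B * (B ^ (k + 1)) ^ b) * (s₀ g * ∏ j, s j g) ^ b := by gcongr
    refine (hnorm h _ (by positivity)).2 ⟨fun j => ?_, ?_⟩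
    · exact (h1 j).trans (h3 _ (hsp j g).le ((key g).2.2 j) _ (hA j).le (hAB j))
    · exact h2.trans (h3 _ (hs₀p g).le (key g).2.1 _ hA₀.le hA₀B)
  refine ⟨B ^ (k + 1) + B * (B ^ (k + 1)) ^ b, by positivity, fun g => ⟨?_, ?_, ?_⟩⟩
  · refine (inv_anti₀ hBk ?_).trans (key g).1
    have : 0 ≤ B * (B ^ (k + 1)) ^ b := by positivity
    linarith
  · exact est g g (fun j => (hg j g).2.1) (hg₀ g).2.1
  · exact est g g⁻¹ (fun j => (hg j g).2.2) (hg₀ g).2.2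

end Pool.AF
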