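import Pool.Agent.Helper94.AF.Main
import Pool.Agent.Helper94.AG.ConeBlk
import Pool.Agent.Helper94.AG.CutBdd
import Pool.Agent.Helper94.AG.DomSum

open Set Finset

set_option linter.unusedSectionVars false

namespace Pool.AF

open Pool.SV

section

variable {E : Type*} [NormedAddCommGroup E] [NormedSpace ℝ E] [FiniteDimensional ℝ E]

/-- The characters normalising the quotients of the flag. -/
theorem exists_chars (D : Geo E) (r : ℕ) (F : ℕ → Submodule ℝ E) (e : ℕ → Alg E)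
    (he : Adapted r F e) (hinv : ∀ i ≤ r, ∀ g ∈ D.Γ, ∀ v ∈ F i, g.linear v ∈ F i) :
    ∃ c : ℕ → D.Γ → ℝ, (∀ i < r, PosMul (c i)) ∧ ∀ i < r, e (i + 1) - e i ≠ 0 →
      ∃ a₀ : ℝ, 0 < a₀ ∧ ∀ g, a₀⁻¹ ≤ ‖cut (hatHom D.Γ) (e (i + 1) - e i) (c i) g‖ := by
  classical
  have key : ∀ i : ℕ, ∃ c : D.Γ → ℝ, i < r → (PosMul c ∧ (e (i + 1) - e i ≠ 0 →
      ∃ a₀ : ℝ, 0 < a₀ ∧ ∀ g, a₀⁻¹ ≤ ‖cut (hatHom D.Γ) (e (i + 1) - e i) c g‖)) := by
    intro i
    by_cases hi : i < r
    swap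
    · exact ⟨1, fun h => absurd h hi⟩
    by_cases hne : e (i + 1) - e i = 0
    · exact ⟨1, fun _ => ⟨⟨fun _ => one_pos, fun _ _ => by simp⟩, fun h => absurd hne h⟩⟩
    have hi' : i + 1 ≤ r := hi
    set f := e (i + 1) - e i with hf
    have h1 := he.idem i hi.le
    have h2 := he.idem (i + 1) hi'
    have h3 := he.up i hi
    have h4 := he.down i hi
    have hff : f * f = f := by
      rw [hf, sub_mul, mul_sub, mul_sub, h1, h2, h3, h4]
      abel
    have hinvF : ∀ j ≤ r, ∀ g : D.Γ, (1 - e j) * hatHom D.Γ g * e j = 0 := fun j hj g =>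
      Flag.hinv_of_range D (F j) (e j) (he.idem j hj) (he.range j hj) (hinv j hj) g
    have hmul : ∀ g h : D.Γ, f * hatHom D.Γ (g * h) * f =
        (f * hatHom D.Γ g * f) * (f * hatHom D.Γ h * f) := by
      intro g h
      have a1 := hinvF i hi.le g
      have a2 := hinvF (i + 1) hi' h
      -- `φ h f = e (i+1) φ h f` and `f φ g e i = 0`
      have b1 : hatHom D.Γ h * f = e (i + 1) * (hatHom D.Γ h * f) := by
        have b2 : e (i + 1) * f = f := by rw [hf, mul_sub, h2, h4]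
        have b3 : (1 - e (i + 1)) * (hatHom D.Γ h * f) = 0 := by
          rw [← b2]
          have : (1 - e (i + 1)) * (hatHom D.Γ h * (e (i + 1) * f)) =
              ((1 - e (i + 1)) * hatHom D.Γ h * e (i + 1)) * f := by simp only [mul_assoc]
          rw [this, a2, zero_mul]
        rw [sub_mul, one_mul, sub_eq_zero] at b3
        exact b3
      have b4 : f * (hatHom D.Γ g * e i) = 0 := by
        have b5 : f * e i = 0 := by rw [hf, sub_mul, h4, h1, sub_self]
        have b6 : hatHom D.Γ g * e i = e i * (hatHom D.Γ g * e i) := by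
          rw [mul_assoc, sub_mul, one_mul, sub_eq_zero] at a1
          exact a1
        rw [b6, ← mul_assoc, b5, zero_mul]
      have b7 : e (i + 1) = f + e i := by rw [hf]; abel
      calc f * hatHom D.Γ (g * h) * f = f * (hatHom D.Γ g * (hatHom D.Γ h * f)) := by
            rw [map_mul]; simp only [mul_assoc]
        _ = f * (hatHom D.Γ g * ((f + e i) * (hatHom D.Γ h * f))) := by rw [← b7, ← b1]
        _ = f * (hatHom D.Γ g * (f * (hatHom D.Γ h * f))) +
            (f * (hatHom D.Γ g * e i)) * (hatHom D.Γ h * f) := by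
              rw [add_mul, mul_add, mul_add]
              simp only [mul_assoc]
        _ = f * (hatHom D.Γ g * (f * (hatHom D.Γ h * f))) := by rw [b4, zero_mul, add_zero]
        _ = f * (hatHom D.Γ g * ((f * f) * (hatHom D.Γ h * f))) := by rw [hff]
        _ = (f * hatHom D.Γ g * f) * (f * hatHom D.Γ h * f) := by simp only [mul_assoc]
    obtain ⟨c, hc, A, m, hA, hb⟩ := exists_norm (hatHom D.Γ) f hff hne hmul
    exact ⟨c, fun _ => ⟨hc, fun _ => ⟨A, hA, fun g => (hb g).1⟩⟩⟩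
  choose c hc using key
  exact ⟨c, fun i hi => (hc i hi).1, fun i hi h => (hc i hi).2 h⟩

/-- The top block with the unit of the algebra. -/
noncomputable def topHom (D : Geo E) (e : Alg E) (he : e * e = e)
    (hinv : ∀ g : D.Γ, (1 - e) * hatHom D.Γ g * e = 0) : D.Γ →* Alg E where
  toFun g := (1 - e) * hatHom D.Γ g * (1 - e) + e
  map_one' := by
    rw [map_one, mul_one, mul_sub, mul_one, sub_mul, one_mul, he]
    abel
  map_mul' g h := by
    have hff : (1 - e) * (1 - e) = 1 - e := by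
      rw [mul_sub, mul_one, sub_mul, one_mul, he]; abel
    have hfe : (1 - e) * e = 0 := by rw [sub_mul, one_mul, he, sub_self]
    have hef : e * (1 - e) = 0 := by rw [mul_sub, mul_one, he, sub_self]
    have h1 : (1 - e) * hatHom D.Γ (g * h) * (1 - e) =
        ((1 - e) * hatHom D.Γ g * (1 - e)) * ((1 - e) * hatHom D.Γ h * (1 - e)) := by
      have h2 : (1 - e) * hatHom D.Γ (g * h) * (1 - e) =
          ((1 - e) * hatHom D.Γ g) * ((1 - e) + e) * (hatHom D.Γ h * (1 - e)) := by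
        rw [map_mul, sub_add_cancel, mul_one]
        simp only [mul_assoc]
      rw [h2, mul_add, add_mul, hinv g, zero_mul, add_zero]
      have h5 : ∀ x : Alg E, (1 - e) * ((1 - e) * x) = (1 - e) * x := fun x => by
        rw [← mul_assoc, hff]
      simp only [mul_assoc, h5]
    rw [h1]
    have h3 : ((1 - e) * hatHom D.Γ g * (1 - e)) * e = 0 := by rw [mul_assoc, hfe, mul_zero]
    have h4 : e * ((1 - e) * hatHom D.Γ h * (1 - e)) = 0 := by
      rw [mul_assoc, ← mul_assoc, hef, zero_mul]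
    rw [add_mul, mul_add, mul_add, h3, h4, he, add_zero, zero_add]

theorem grow_top {G : Type*} [Group G] (T : G → Alg E) (e : Alg E) (s : G → ℝ) (b : ℕ)
    (h : Grow T s b) : Grow (fun g => T g + e) s b := by
  obtain ⟨A, hA, h1⟩ := h
  have hlow : ∀ g, A⁻¹ ^ b ≤ s g ^ b := fun g => pow_le_pow_left₀ (by positivity) (h1 g).1 b
  refine ⟨A + ‖e‖ * A ^ b, by positivity, fun g => ⟨?_, ?_, ?_⟩⟩
  · refine (inv_anti₀ hA ?_).trans (h1 g).1
    have : 0 ≤ ‖e‖ * A ^ b := by positivity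
    linarith
  all_goals
    have h2 : 1 ≤ A ^ b * s g ^ b := by
      calc (1 : ℝ) = A ^ b * A⁻¹ ^ b := by rw [← mul_pow, mul_inv_cancel₀ hA.ne', one_pow]
        _ ≤ A ^ b * s g ^ b := mul_le_mul_of_nonneg_left (hlow g) (by positivity)
    have h3 : ‖e‖ ≤ ‖e‖ * A ^ b * s g ^ b := by
      calc ‖e‖ = ‖e‖ * 1 := (mul_one _).symm
        _ ≤ ‖e‖ * (A ^ b * s g ^ b) := by gcongr
        _ = ‖e‖ * A ^ b * s g ^ b := by ring
  · calc ‖T g + e‖ ≤ ‖T g‖ + ‖e‖ := norm_add_le _ _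
      _ ≤ A * s g ^ b + ‖e‖ * A ^ b * s g ^ b := add_le_add (h1 g).2.1 h3
      _ = _ := by ring
  · calc ‖T g⁻¹ + e‖ ≤ ‖T g⁻¹‖ + ‖e‖ := norm_add_le _ _
      _ ≤ A * s g ^ b + ‖e‖ * A ^ b * s g ^ b := add_le_add (h1 g).2.2 h3
      _ = _ := by ring

theorem ScalBdd.mono {G : Type*} [Group G] {d : ℕ} {σ : G →* ((Fin d → ℝ) →ₗ[ℝ] (Fin d → ℝ))}
    {R R' : ℝ} {g : G} (h : ScalBdd σ R g) (hR : R ≤ R') : ScalBdd σ R' g := by
  obtain ⟨t, ht, h1⟩ := h
  exact ⟨t, ht, fun v => ⟨(h1 v).1.trans (mul_le_mul_of_nonneg_right hR (norm_nonneg v)),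
    (h1 v).2.trans (mul_le_mul_of_nonneg_right hR (norm_nonneg v))⟩⟩

theorem AffBdd.mono {V : Submodule ℝ E} {R R' : ℝ} {g : E ≃ᵃ[ℝ] E} (h : AffBdd V R g)
    (hR : R ≤ R') : AffBdd V R' g := by
  intro x
  obtain ⟨v, hv, v', hv', h1, h2⟩ := h x
  have h3 : 0 ≤ 1 + ‖x‖ := by positivity
  exact ⟨v, hv, v', hv', h1.trans (mul_le_mul_of_nonneg_right hR h3),
    h2.trans (mul_le_mul_of_nonneg_right hR h3)⟩

/-- A bound of the blocks gives the bounds of the definition. -/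
theorem scalBdd_of_block {G : Type*} [Group G] {d : ℕ}
    (σ : G →* ((Fin d → ℝ) →ₗ[ℝ] (Fin d → ℝ))) (c : G → ℝ) (hc : PosMul c)
    (ρ : G →* ((Fin d → ℝ) →ₗ[ℝ] (Fin d → ℝ))) (hρ : ∀ g v, ρ g v = (c g)⁻¹ • σ g v) (R : ℝ)
    (g : G) (h1 : ‖LinearMap.toContinuousLinearMap (ρ g)‖ ≤ R)
    (h2 : ‖LinearMap.toContinuousLinearMap (ρ g⁻¹)‖ ≤ R) : ScalBdd σ R g := by
  have h3 : c g⁻¹ = (c g)⁻¹ := by
    have h4 : c 1 = 1 := by
      have := hc.2 1 1
      rw [mul_one] at this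
      exact (mul_eq_left₀ (hc.1 1).ne').mp this.symm
    have h5 := hc.2 g g⁻¹
    rw [mul_inv_cancel, h4] at h5
    exact eq_inv_of_mul_eq_one_right h5.symm
  refine ⟨(c g)⁻¹, inv_pos.mpr (hc.1 g), fun v => ⟨?_, ?_⟩⟩
  · rw [← hρ g v]
    exact ((LinearMap.toContinuousLinearMap (ρ g)).le_opNorm v).trans
      (mul_le_mul_of_nonneg_right h1 (norm_nonneg v))
  · have h6 : ((c g)⁻¹)⁻¹ • σ g⁻¹ v = ρ g⁻¹ v := by
      rw [hρ, h3]
    rw [h6]
    exact ((LinearMap.toContinuousLinearMap (ρ g⁻¹)).le_opNorm v).trans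
      (mul_le_mul_of_nonneg_right h2 (norm_nonneg v))

theorem vanish_of_coneDominated (D : Geo E) (hpos : 0 < Module.finrank ℝ E)
    (hcc : ∃ K ⊆ D.X, IsCompact K ∧ ∀ x ∈ D.X, ∃ g ∈ D.Γ, g x ∈ K)
    (hdom : ConeDominated D.Γ D.X) : Vanish D := by
  classical
  obtain ⟨r, F, k, d, σ, C, h0, hr, hF, hC, hs1, hs2, hdomi⟩ := hdom
  have hinv : ∀ i ≤ r, ∀ g ∈ D.Γ, ∀ v ∈ F i, g.linear v ∈ F i := by
    intro i hi g hg v hv
    cases i with
    | zero =>
      rw [h0, Submodule.mem_bot] at hv ⊢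
      rw [hv, map_zero]
    | succ i => exact (hF i hi).2 g hg v hv
  obtain ⟨e, he⟩ := exists_adapted r F (fun i hi => (hF i hi).1)
  obtain ⟨c, hc, hlow⟩ := exists_chars D r F e he hinv
  rcases flag_tau D r F h0 e he hinv c hc with hab | ⟨τ, hτ, hdisc⟩
  · exact vanish_of_hasAbNormal D hpos hab hcc
  -- the cones
  have hblk := fun j => blk_of_cone (d j) (hC j).1 (σ j) (C j) (hC j).2
  choose c' ρ ξ' b' hc' hρ hξpos hgrow' using hblk
  set Q : Fin k → Blk D.Γ := fun j =>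
    { d := d j
      ρ := ρ j
      C := C j
      ξ := ξ' j
      isOpen := (hC j).2.isOpen
      convex := (hC j).2.convex
      nonempty := (hC j).2.nonempty
      smul_mem := (hC j).2.smul_mem
      inv := fun g v hv => by
        rw [hρ j g v]
        exact (hC j).2.smul_mem _ ((hC j).2.inv g v hv) _ (inv_pos.mpr ((hc' j).1 g))
      pos := hξpos j } with hQ
  have hV : ∀ v, v ∈ F r ↔ v ∈ Lin D.X := hr
  have hher := he.idem r le_rfl
  have hinvr : ∀ g : D.Γ, (1 - e r) * hatHom D.Γ g * e r = 0 := fun g =>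
    Flag.hinv_of_range D (F r) (e r) hher (he.range r le_rfl) (hinv r le_rfl) g
  -- finiteness
  have hfin : ∀ B : ℝ, {g : D.Γ | (∀ j, ‖LinearMap.toContinuousLinearMap (ρ j g)‖ ≤ B ∧
      ‖LinearMap.toContinuousLinearMap (ρ j g⁻¹)‖ ≤ B) ∧ ‖topHom D (e r) hher hinvr g‖ ≤ B ∧
      ‖topHom D (e r) hher hinvr g⁻¹‖ ≤ B}.Finite := by
    intro B
    have htop : ∀ g : D.Γ, ‖topHom D (e r) hher hinvr g‖ ≤ B →
        ‖(1 - e r) * hatHom D.Γ g * (1 - e r)‖ ≤ B + ‖e r‖ := by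
      intro g hg
      have h1 : (1 - e r) * hatHom D.Γ g * (1 - e r) = topHom D (e r) hher hinvr g - e r := by
        change _ = (1 - e r) * hatHom D.Γ g * (1 - e r) + e r - e r
        rw [add_sub_cancel_right]
      rw [h1]
      exact (norm_sub_le _ _).trans (by linarith)
    obtain ⟨R₁, hR₁⟩ := affBdd_of_top D (F r) (hinv r le_rfl) (e r) hher (he.range r le_rfl)
      (B + ‖e r‖)
    obtain ⟨R₂, hR₂⟩ := hdomi (max B R₁)
    have hM : ∀ i, ∃ M : ℝ, i < r → ∀ g : D.Γ, QuotBdd (F i) (F (i + 1)) R₂ g.1 →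
        ‖cut (hatHom D.Γ) (e (i + 1) - e i) (c i) g‖ ≤ M ∧
        ‖cut (hatHom D.Γ) (e (i + 1) - e i) (c i) g⁻¹‖ ≤ M := by
      intro i
      by_cases hi : i < r
      swap
      · exact ⟨0, fun h => absurd h hi⟩
      have hi' : i + 1 ≤ r := hi
      by_cases hne : e (i + 1) - e i = 0
      · refine ⟨0, fun _ g _ => ?_⟩
        simp [cut, hne]
      · obtain ⟨a₀, ha₀, hl⟩ := hlow i hi hne
        obtain ⟨M, hM⟩ := cut_bdd D (F i) (F (i + 1)) (hinv i hi.le) (hinv _ hi') (e i)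
          (e (i + 1)) (he.idem i hi.le) (he.idem _ hi') (he.range i hi.le) (he.range _ hi')
          (he.up i hi) (he.down i hi) (c i) (hc i hi) a₀ ha₀ hl R₂
        exact ⟨M, fun _ => hM⟩
    choose M hM using hM
    refine (hdisc (∑ i ∈ Finset.range r, M i + (B + ‖e r‖))).subset ?_
    rintro g ⟨h1, h2, h3⟩
    have h4 : ∀ i < r, QuotBdd (F i) (F (i + 1)) R₂ g.1 := by
      refine hR₂ g (fun j => ?_) ?_
      · exact (scalBdd_of_block (σ j) (c' j) (hc' j) (ρ j) (hρ j) B g (h1 j).1 (h1 j).2).mono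
          (le_max_left _ _)
      · exact (hR₁ g (htop g h2) (htop g⁻¹ h3)).mono (le_max_right _ _)
    constructor
    · rw [hτ]
      refine (norm_add_le _ _).trans (add_le_add ?_ (htop g h2))
      refine (norm_sum_le _ _).trans (Finset.sum_le_sum fun i hi => ?_)
      have hi := Finset.mem_range.mp hi
      exact (hM i hi g (h4 i hi)).1
    · rw [hτ]
      refine (norm_add_le _ _).trans (add_le_add ?_ (htop g⁻¹ h3))
      refine (norm_sum_le _ _).trans (Finset.sum_le_sum fun i hi => ?_)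
      have hi := Finset.mem_range.mp hi
      exact (hM i hi g (h4 i hi)).2
  -- the equivariant maps into the cones
  have hv : ∀ i : Fin k, ∃ v : E → (Fin (Q i).d → ℝ), ContDiffOn ℝ 2 v D.X ∧
      (∀ x ∈ D.X, v x ∈ (Q i).C) ∧ ∀ g : D.Γ, ∀ x ∈ D.X, v (g.1 x) = (Q i).ρ g (v x) :=
    fun i => exists_equi D hcc (Q i).ρ (Q i).C (Q i).convex (Q i).nonempty (Q i).inv
  choose v hv1 hv2 hv3 using hv
  by_cases hVR : (F r : Set E) = Rec D.X
  · -- the domain is bounded modulo the lineality space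
    obtain ⟨R, hR⟩ := top_bounded D (F r) hV (e r) (he.idem r le_rfl) (he.range r le_rfl) hVR
    have hT₀ : Grow (fun g : D.Γ => (1 - e r) * hatHom D.Γ g * (1 - e r)) (fun _ => (1 : ℝ))
        (∑ j, b' j) := by
      refine ⟨|R| + 1, by positivity, fun g => ⟨?_, ?_, ?_⟩⟩
      · apply inv_le_one_of_one_le₀
        linarith [abs_nonneg R]
      · rw [one_pow, mul_one]
        exact (hR g).trans ((le_abs_self R).trans (by linarith))
      · rw [one_pow, mul_one]
        exact (hR g⁻¹).trans ((le_abs_self R).trans (by linarith))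
    obtain ⟨N, hN⟩ := summable_total k d ρ (topHom D (e r) hher hinvr) hfin (∑ j, b' j)
    have hsum : ∀ x ∈ D.X, Summable (fun g : D.Γ => ∏ i, ((Q i).ev g (v i x))⁻¹ ^ N) := by
      intro x hx
      have h1 := hN N le_rfl (fun j g => (Q j).ev g (v j x)) (fun _ => 1)
        (fun j => (hgrow' j (v j x) (hv2 j x hx)).mono
          (Finset.single_le_sum (f := b') (fun _ _ => Nat.zero_le _) (Finset.mem_univ j)))
        (grow_top _ (e r) _ _ hT₀)
      refine h1.congr fun g => ?_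
      rw [one_mul, ← Finset.prod_inv_distrib, Finset.prod_pow]
    have hdim : ∑ i, ((Q i).d - 1) < Module.finrank ℝ E := by
      by_cases hX : D.X = Set.univ
      · exact (hs2 hX).trans_le (Submodule.finrank_le _)
      · refine hs1.trans_lt (Submodule.finrank_lt ?_)
        intro htop
        apply hX
        obtain ⟨x, hx⟩ := D.nonempty
        rw [Set.eq_univ_iff_forall]
        intro y
        have h5 : y - x ∈ F r := by rw [htop]; exact Submodule.mem_top
        have h6 := (hr _).mp h5 x hx 1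
        rwa [one_smul, add_sub_cancel] at h6
    refine vanish_of_goodPart D hpos fun K hKX hK hKc => ?_
    obtain ⟨C₀, hC₀, hfam⟩ := fam_B D K hK hKX hKc k Q v hv1 hv2 hv3 N hsum hdim
    exact goodPart_of_family D K hKX (Fin k) N C₀ hC₀ hfam
  · -- the recession cone is larger than the lineality space
    obtain ⟨hRc, hRn, hRi, _, _⟩ := recInt_props D
    obtain ⟨ee, he1, he2, he3⟩ := exists_equi D hcc (linHom D) (RecInt D.X) hRc hRn
      (fun g u hu => hRi g u hu)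
    obtain ⟨cT, ξ, bT, hcT, hξV, hξ, hξR, hgT⟩ := blk_top D (F r) hV (e r) (he.idem r le_rfl)
      (he.range r le_rfl)
    obtain ⟨N, hN⟩ := summable_total k d ρ (topHom D (e r) hher hinvr) hfin (∑ j, b' j + bT)
    have hsum : ∀ x ∈ D.X, ∀ y ∈ D.X, Summable (fun g : D.Γ =>
        (cT g * ξ (hatHom D.Γ g⁻¹ (y, 1)))⁻¹ ^ N * ∏ i, ((Q i).ev g (v i x))⁻¹ ^ N) := by
      intro x hx y hy
      have h1 := hN N le_rfl (fun j g => (Q j).ev g (v j x))
        (fun g => cT g * ξ (hatHom D.Γ g⁻¹ (y, 1)))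
        (fun j => (hgrow' j (v j x) (hv2 j x hx)).mono
          ((Finset.single_le_sum (f := b') (fun _ _ => Nat.zero_le _)
            (Finset.mem_univ j)).trans (Nat.le_add_right _ _)))
        (grow_top _ (e r) _ _ ((hgT y hy).mono (Nat.le_add_left _ _)))
      refine h1.congr fun g => ?_
      rw [mul_inv, mul_pow, ← Finset.prod_inv_distrib, Finset.prod_pow]
    refine vanish_of_goodPart D hpos fun K hKX hK hKc => ?_
    obtain ⟨C₀, hC₀, hfam⟩ := fam_A D K hK hKX hKc k Q v hv1 hv2 hv3 ee he1 he2 he3 (F r) hV hVR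
      cT hcT ξ hξV hξ hξR N hsum hs1
    exact goodPart_of_family D K hKX (Option (Fin k)) N C₀ hC₀ hfam

/-- The statement with a subgroup of finite index. -/
theorem vanish_of_virtual_coneDominated (D : Geo E) (hpos : 0 < Module.finrank ℝ E)
    (hcc : ∃ K ⊆ D.X, IsCompact K ∧ ∀ x ∈ D.X, ∃ g ∈ D.Γ, g x ∈ K)
    (Γ₁ : Subgroup (E ≃ᵃ[ℝ] E)) (hΓ₁ : Γ₁ ≤ D.Γ) (hfin : Γ₁.relIndex D.Γ ≠ 0)
    (hdom : ConeDominated Γ₁ D.X) : Vanish D := by
  have heq : (geoSub D (Γ₁.subgroupOf D.Γ)).Γ = Γ₁ := by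
    change (Γ₁.subgroupOf D.Γ).map D.Γ.subtype = Γ₁
    rw [Subgroup.map_subgroupOf_eq_of_le hΓ₁]
  have hfi : (Γ₁.subgroupOf D.Γ).FiniteIndex := ⟨hfin⟩
  have hV : Vanish (geoSub D (Γ₁.subgroupOf D.Γ)) := by
    refine vanish_of_coneDominated _ hpos (cocompact_geoSub D _ hcc) ?_
    rw [heq]
    exact hdom
  refine vanish_transfer D (geoSub D (Γ₁.subgroupOf D.Γ)) (Subgroup.map_subtype_le _) ?_
    subset_rfl hV
  rw [relIndex_geoSub]
  exact hfin

end

end Pool.AF
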