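import Pool.Agent.Helper84.SV.Stmt
import Pool.Agent.Helper94.AG.Defs

open Set

namespace Pool.AF

open Pool.SV

/-- The action of some subgroup of finite index of `Γ` on the lineality space of `X` is dominated
by actions on convex cones. -/
def VirtuallyConeDominated {m : ℕ} (Γ : Subgroup (Aff m)) (X : Set (EuclideanSpace ℝ (Fin m))) :
    Prop :=
  ∃ Γ₁ : Subgroup (Aff m), Γ₁ ≤ Γ ∧ Γ₁.relIndex Γ ≠ 0 ∧ ConeDominated Γ₁ X

end Pool.AF
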